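import Mathlib
import Pool.Agent.V11278.SatFiveK

/-!
# MP_d898df_co: the exact value of `h(n,5)` for every `n` (helper278)

Definitions (from `Pool.Agent.V11278.DegMono`):
* `dg G v` is the number of neighbours of `v`;
* `IsDMP G l`: the list `l` has distinct entries, consecutive entries are adjacent, and the degrees
  are nondecreasing along `l` or nonincreasing along `l`;
* `mp G` is the largest length (number of vertices) of such a list;
* `KSat k G`: `mp G < k` and `k ≤ mp (G ⊔ edge u v)` for all non-adjacent `u ≠ v`.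
-/

namespace Pool.Agent.Results.MP_d898df_co.SaturationFive

open Pool.Agent.V11278.DegMono Pool.Agent.V11278.SatFive Filter Topology

/-- The saturation number `h(n,k)`: the least number of edges of a `k`-saturated graph on `n`
vertices. -/
noncomputable def h (n k : ℕ) : ℕ :=
  sInf {e | ∃ G : SimpleGraph (Fin n), KSat k G ∧ G.edgeSet.ncard = e}

/-- `5`-saturated graphs exist on every number `n` of vertices; `h(1,5) = 0`, `h(2,5) = 1`,
`h(3,5) = 3`, `h(5,5) = 9`, `h(9,5) = 11`, and for every other `n` the value of `h(n,5)` is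
`⌈7n/6⌉` if `n` is `0` or `1` modulo `6` and `⌈7n/6⌉ + 1` otherwise.  In particular
`h(n,5) / n → 7/6`. -/
theorem result :
    (∀ n : ℕ, {e | ∃ G : SimpleGraph (Fin n), KSat 5 G ∧ G.edgeSet.ncard = e}.Nonempty ∧
      h n 5 = if n = 1 then 0 else if n = 2 then 1 else if n = 3 then 3 else
        if n = 5 then 9 else if n = 9 then 11 else
        if n % 6 ≤ 1 then (7 * n + 5) / 6 else (7 * n + 5) / 6 + 1) ∧
    Tendsto (fun n : ℕ => (h n 5 : ℝ) / n) atTop (𝓝 (7 / 6)) := by
  have key : ∀ n, h n 5 = vl n := fun n => (isLeast_vl n).csInf_eq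
  refine ⟨fun n => ⟨⟨_, (isLeast_vl n).1⟩, by rw [key]; rfl⟩, ?_⟩
  simp only [key]
  exact tendsto_vl

end Pool.Agent.Results.MP_d898df_co.SaturationFive
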